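import Pool.Agent.H27.Leg.Adams
import Pool.Agent.H27.Leg.Bd

/-! # Orthogonality of the Legendre polynomials on `[-1, 1]` -/

set_option autoImplicit false
open Polynomial MeasureTheory Set

namespace H56.SF

open Pool.Agent.H27.Leg

theorem integral_P (n : ℕ) (hn : n ≠ 0) : ∫ x in (-1 : ℝ)..1, (P n).eval x = 0 := by
  have h1 : ∀ x ∈ uIcc (-1 : ℝ) 1, HasDerivAt (fun x => ((1 - X ^ 2) * derivative (P n)).eval x)
      ((derivative ((1 - X ^ 2) * derivative (P n))).eval x) x := fun x _ =>
    Polynomial.hasDerivAt _ x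
  have h2 := intervalIntegral.integral_eq_sub_of_hasDerivAt h1
    ((Polynomial.continuous _).intervalIntegrable _ _)
  have h3 : (n : ℝ) * ((n : ℝ) + 1) ≠ 0 := by
    have : (0 : ℝ) < n := by exact_mod_cast Nat.pos_of_ne_zero hn
    positivity
  have h4 : ∀ x : ℝ, (derivative ((1 - X ^ 2) * derivative (P n))).eval x =
      -((n : ℝ) * ((n : ℝ) + 1)) * (P n).eval x := by
    intro x
    rw [ode n]
    simp
  simp only [h4] at h2
  rw [intervalIntegral.integral_const_mul] at h2
  have h5 : (eval 1 ((1 - X ^ 2) * derivative (P n)) - eval (-1) ((1 - X ^ 2) * derivative (P n)) : ℝ)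
      = 0 := by simp
  rw [h5] at h2
  exact (mul_eq_zero.1 h2).resolve_left (neg_ne_zero.2 h3)

theorem integral_P_zero : ∫ x in (-1 : ℝ)..1, (P 0).eval x = 2 := by
  simp only [P_zero, eval_one]
  rw [intervalIntegral.integral_const]
  norm_num

theorem integral_P_mul (a b : ℕ) :
    ∫ x in (-1 : ℝ)..1, (P a).eval x * (P b).eval x = if a = b then 2 / (2 * (a : ℝ) + 1) else 0 := by
  have h1 : ∀ x : ℝ, (P a).eval x * (P b).eval x =
      ∑ L ∈ Finset.range (a + b + 1), c a b L * (P L).eval x := fun x => by
    exact P_mul_eval a b _ le_rfl x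
  simp only [h1]
  rw [intervalIntegral.integral_finsetSum (fun L _ =>
    ((Polynomial.continuous _).intervalIntegrable _ _).const_mul _)]
  rw [Finset.sum_eq_single 0]
  · rw [intervalIntegral.integral_const_mul, integral_P_zero, c_zero_right]
    split_ifs <;> ring
  · intro L _ hL
    rw [intervalIntegral.integral_const_mul, integral_P L hL, mul_zero]
  · intro h0
    exact absurd (Finset.mem_range.2 (by omega)) h0

/-- Coefficients of an absolutely convergent Legendre series. -/
theorem integral_tsum_P {a : ℕ → ℝ} (ha : Summable fun k => |a k|) (k : ℕ) :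
    ∫ x in (-1 : ℝ)..1, (∑' m, a m * (P m).eval x) * (P k).eval x = a k * (2 / (2 * (k : ℝ) + 1)) := by
  have hP : ∀ m : ℕ, ∀ x ∈ Icc (-1 : ℝ) 1, |(P m).eval x| ≤ 1 := fun m x hx =>
    abs_le_one m (abs_le.2 hx)
  have hs : HasSum (fun m => ∫ x in (-1 : ℝ)..1, (a m * (P m).eval x) * (P k).eval x)
      (∫ x in (-1 : ℝ)..1, (∑' m, a m * (P m).eval x) * (P k).eval x) := by
    refine intervalIntegral.hasSum_integral_of_dominated_convergence (fun m _ => |a m|)
      (fun m => ?_) (fun m => ?_) ?_ ?_ ?_
    · exact (((Polynomial.continuous _).const_mul _ |>.mul (Polynomial.continuous _))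
        ).aestronglyMeasurable
    · refine Filter.Eventually.of_forall (fun x hx => ?_)
      rw [uIoc_of_le (by norm_num : (-1 : ℝ) ≤ 1)] at hx
      have hx' := Ioc_subset_Icc_self hx
      rw [Real.norm_eq_abs, abs_mul, abs_mul]
      have h1 := hP m x hx'
      have h2 := hP k x hx'
      have h3 := abs_nonneg (a m)
      calc |a m| * |(P m).eval x| * |(P k).eval x| ≤ |a m| * 1 * 1 := by gcongr
        _ = |a m| := by ring
    · exact Filter.Eventually.of_forall (fun x _ => ha)
    · exact intervalIntegrable_const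
    · refine Filter.Eventually.of_forall (fun x hx => ?_)
      rw [uIoc_of_le (by norm_num : (-1 : ℝ) ≤ 1)] at hx
      have hx' := Ioc_subset_Icc_self hx
      have hsm : Summable fun m => a m * (P m).eval x := by
        refine Summable.of_norm_bounded ha (fun m => ?_)
        rw [Real.norm_eq_abs, abs_mul]
        exact mul_le_of_le_one_right (abs_nonneg _) (hP m x hx')
      exact hsm.hasSum.mul_right _
  rw [← hs.tsum_eq, tsum_eq_single k]
  · simp only [mul_assoc]
    rw [intervalIntegral.integral_const_mul, integral_P_mul, if_pos rfl]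
  · intro m hm
    simp only [mul_assoc]
    rw [intervalIntegral.integral_const_mul, integral_P_mul, if_neg hm, mul_zero]

end H56.SF
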