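import Pool.Agent.H56.SF.PairMom
import Pool.Agent.H56.SF.Orth
import Pool.Agent.H23.SB.Mon

/-! # The Bessel and Legendre modes as instances of `RadMode`, `AngMode` -/

set_option autoImplicit false
open Set Filter Topology MeasureTheory Polynomial

namespace H56.SF

open Pool.Agent.H68.SC Pool.Agent.H27.Leg Pool.Agent.H23.SB

/-- The second derivative of `j_k`. -/
noncomputable def d2jl (k : ℕ) (t : ℝ) : ℝ :=
  ((k : ℝ) * (k + 1) / t ^ 2 - 1) * jl k t - 2 / t * djl k t

theorem radMode_jl (k : ℕ) {G : ℝ → ℝ} (hG : ∀ r, 0 < r → HasDerivAt G (r ^ 2 * jl k r) r) :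
    RadMode ((k : ℝ) * (k + 1)) (jl k) (djl k) (d2jl k) G where
  hj := fun r hr => jl_deriv k hr
  hj1 := fun r hr => djl_deriv k hr
  hj2 := by
    have c0 : ContinuousOn (jl k) (Ioi 0) := (jl_smooth k).continuousOn
    have c1 : ContinuousOn (djl k) (Ioi 0) := (djl_smooth k).continuousOn
    unfold d2jl
    refine ((ContinuousOn.div continuousOn_const (continuousOn_id.pow 2) ?_).sub
      continuousOn_const).mul c0 |>.sub ((ContinuousOn.div continuousOn_const continuousOn_id ?_).mul c1)
    · intro x hx
      exact pow_ne_zero 2 (ne_of_gt hx)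
    · intro x hx
      exact ne_of_gt hx
  ode := fun r hr => by
    unfold d2jl
    have : r ≠ 0 := hr.ne'
    field_simp
    ring
  hG := hG

theorem angMode_P (k : ℕ) :
    AngMode ((k : ℝ) * (k + 1)) (fun x => (P k).eval x) (fun x => (derivative (P k)).eval x)
      (fun x => (derivative (derivative (P k))).eval x) where
  hP := fun x => Polynomial.hasDerivAt _ x
  hP1 := fun x => Polynomial.hasDerivAt _ x
  ode := fun x => ode_eval k x

end H56.SF
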