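import Pool.Agent.H94.SF.Defs
import Pool.Agent.H56.SF.Inst

/-! # The background on the layer is a `Base` -/

set_option autoImplicit false
open Set Filter Topology MeasureTheory

namespace H56.SF

open Pool.Agent.H68.SC (jl djl jl_deriv jl_smooth djl_smooth)
open Pool.Agent.H36.SC

theorem jl0_ne : jl 0 SF.rho ≠ 0 := jl_zero_rho_ne SN.rho_pos SN.sin_rho

theorem jl1_rho : jl 1 SF.rho = 0 := jl_one_rho SN.rho_pos SN.sin_rho

theorem R0_gt : 1210 < SF.R0 := by
  have h := SN.rho_gt
  unfold SF.R0 SF.wd SF.rho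
  norm_num at h ⊢
  linarith

theorem R0_pos : 0 < SF.R0 := by linarith [R0_gt]

theorem R0_lt : SF.R0 < SF.rho := by
  unfold SF.R0 SF.wd
  linarith

theorem base : Base SF.R0 SF.rho SF.v0 SF.v1 SF.v2 SF.v3 SF.chi SF.chi1 := by
  have hp : ∀ s ∈ Ioo SF.R0 SF.rho, 0 < s := fun s hs => R0_pos.trans hs.1
  have hp' : ∀ s ∈ Icc SF.R0 SF.rho, 0 < s := fun s hs => R0_pos.trans_le hs.1
  refine
    { R0pos := R0_pos
      v_s := fun s hs => SF.bgd.dv0 s (hp s hs)
      p_s := fun s hs => SF.bgd.dp s (hp s hs)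
      q_s := fun s hs => SF.bgd.dq s (hp s hs)
      chi_s := fun s hs => SF.bgd.dch s (hp s hs)
      cv := fun s hs => (SF.bgd.dv0 s (hp' s hs)).continuousAt.continuousWithinAt
      cp := fun s hs => (SF.bgd.dp s (hp' s hs)).continuousAt.continuousWithinAt
      cq := fun s hs => (SF.bgd.dq s (hp' s hs)).continuousAt.continuousWithinAt
      cq3 := ?_
      cchi := (continuous_cut _ _).continuousOn
      cchi1 := (continuous_cut1 _ _).continuousOn
      chi_in := cut_of_le le_rfl
      chi_out := ?_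
      v_out := ?_
      p_out := ?_
      q_out := ?_ }
  · intro s hs
    have hs0 := hp s hs
    have c1 : ContinuousAt (jl 1) s := (jl_deriv 1 hs0).continuousAt
    have c2 : ContinuousAt (djl 1) s := (djl_one_hasDerivAt hs0).continuousAt
    have c3 : ContinuousAt (fun t : ℝ => 2 / t) s := continuousAt_const.div continuousAt_id hs0.ne'
    have c4 : ContinuousAt (fun t : ℝ => 2 / t ^ 2 - 1) s :=
      (continuousAt_const.div (continuousAt_id.pow 2) (pow_ne_zero 2 hs0.ne')).sub
        continuousAt_const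
    have c5 := (((c4.mul c1).sub (c3.mul c2)).div_const (jl 0 SF.rho)).continuousWithinAt
      (s := Ioo SF.R0 SF.rho)
    exact c5
  · have h1 := cut_end (R0 := SF.R0) (w := SF.wd) (by unfold SF.wd; norm_num)
    have h2 : SF.R0 + SF.wd = SF.rho := by unfold SF.R0; ring
    rwa [h2] at h1
  · exact bv0_rho SN.rho_pos SN.sin_rho
  · exact bp_rho SN.rho_pos SN.sin_rho
  · exact bq_rho SN.rho_pos SN.sin_rho

end H56.SF
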