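import Mathlib

/-! # A conservation law on a rectangle

`N_s + S_x = 0` on `(R0, rho) × (-1, 1)`, `S = 0` at `x = ±1`: the integral of `N` over `x` does not
depend on `s`. Only first partial derivatives, continuous. -/

set_option autoImplicit false
open Set Filter Topology MeasureTheory

namespace H56.SF

lemma continuousOn_integral {R0 rho : ℝ} {N : ℝ → ℝ → ℝ}
    (hNc : ContinuousOn (fun q : ℝ × ℝ => N q.1 q.2) (Icc R0 rho ×ˢ Icc (-1 : ℝ) 1)) :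
    ContinuousOn (fun s => ∫ x in (-1 : ℝ)..1, N s x) (Icc R0 rho) := by
  obtain ⟨C, hC⟩ := (isCompact_Icc.prod isCompact_Icc).exists_bound_of_continuousOn hNc
  have hx : ∀ s ∈ Icc R0 rho, ContinuousOn (fun x => N s x) (Icc (-1 : ℝ) 1) := by
    intro s hs
    exact hNc.comp (f := fun x : ℝ => ((s, x) : ℝ × ℝ)) (by fun_prop) (fun x hx => ⟨hs, hx⟩)
  intro s0 hs0
  refine intervalIntegral.continuousWithinAt_of_dominated_interval (bound := fun _ => C) ?_ ?_ ?_ ?_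
  · filter_upwards [self_mem_nhdsWithin] with s hs
    rw [uIoc_of_le (by norm_num : (-1 : ℝ) ≤ 1)]
    exact ((hx s hs).mono Ioc_subset_Icc_self).aestronglyMeasurable measurableSet_Ioc
  · filter_upwards [self_mem_nhdsWithin] with s hs
    refine ae_of_all _ (fun x hxm => ?_)
    rw [uIoc_of_le (by norm_num : (-1 : ℝ) ≤ 1)] at hxm
    exact hC (s, x) ⟨hs, Ioc_subset_Icc_self hxm⟩
  · exact intervalIntegrable_const
  · refine ae_of_all _ (fun x hxm => ?_)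
    rw [uIoc_of_le (by norm_num : (-1 : ℝ) ≤ 1)] at hxm
    exact (hNc (s0, x) ⟨hs0, Ioc_subset_Icc_self hxm⟩).comp
      (f := fun s : ℝ => ((s, x) : ℝ × ℝ)) (by fun_prop)
      (fun s hs => ⟨hs, Ioc_subset_Icc_self hxm⟩)

theorem conserved {R0 rho : ℝ} (h : R0 < rho) {N Nd S : ℝ → ℝ → ℝ}
    (hNc : ContinuousOn (fun q : ℝ × ℝ => N q.1 q.2) (Icc R0 rho ×ˢ Icc (-1 : ℝ) 1))
    (hNd : ContinuousOn (fun q : ℝ × ℝ => Nd q.1 q.2) (Ioo R0 rho ×ˢ Icc (-1 : ℝ) 1))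
    (hN : ∀ s ∈ Ioo R0 rho, ∀ x ∈ Icc (-1 : ℝ) 1, HasDerivAt (fun s => N s x) (Nd s x) s)
    (hSc : ∀ s ∈ Ioo R0 rho, ContinuousOn (fun x => S s x) (Icc (-1 : ℝ) 1))
    (hS : ∀ s ∈ Ioo R0 rho, ∀ x ∈ Ioo (-1 : ℝ) 1, HasDerivAt (fun x => S s x) (-Nd s x) x)
    (hS0 : ∀ s ∈ Ioo R0 rho, S s (-1) = 0) (hS1 : ∀ s ∈ Ioo R0 rho, S s 1 = 0) :
    ∫ x in (-1 : ℝ)..1, N R0 x = ∫ x in (-1 : ℝ)..1, N rho x := by
  have hNdx : ∀ s ∈ Ioo R0 rho, ContinuousOn (fun x => Nd s x) (Icc (-1 : ℝ) 1) := by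
    intro s hs
    exact hNd.comp (f := fun x : ℝ => ((s, x) : ℝ × ℝ)) (by fun_prop) (fun x hx => ⟨hs, hx⟩)
  have hNx : ∀ s ∈ Icc R0 rho, ContinuousOn (fun x => N s x) (Icc (-1 : ℝ) 1) := by
    intro s hs
    exact hNc.comp (f := fun x : ℝ => ((s, x) : ℝ × ℝ)) (by fun_prop) (fun x hx => ⟨hs, hx⟩)
  have hNdi : ∀ s ∈ Ioo R0 rho, IntervalIntegrable (fun x => Nd s x) volume (-1) 1 := by
    intro s hs
    exact (hNdx s hs).intervalIntegrable_of_Icc (by norm_num)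
  have hI : ∀ s ∈ Ioo R0 rho, ∫ x in (-1 : ℝ)..1, Nd s x = 0 := by
    intro s hs
    have h1 := intervalIntegral.integral_eq_sub_of_hasDerivAt_of_le (by norm_num : (-1 : ℝ) ≤ 1)
      (hSc s hs) (hS s hs) (hNdi s hs).neg
    rw [hS0 s hs, hS1 s hs, intervalIntegral.integral_neg] at h1
    linarith
  have hder : ∀ s0 ∈ Ioo R0 rho, HasDerivAt (fun s => ∫ x in (-1 : ℝ)..1, N s x) 0 s0 := by
    intro s0 hs0
    obtain ⟨s1, hs1, hs1'⟩ := exists_between hs0.1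
    obtain ⟨s2, hs2, hs2'⟩ := exists_between hs0.2
    have hsub : Icc s1 s2 ⊆ Ioo R0 rho := fun s hs =>
      ⟨lt_of_lt_of_le hs1 hs.1, lt_of_le_of_lt hs.2 hs2'⟩
    obtain ⟨C, hC⟩ := (isCompact_Icc.prod isCompact_Icc).exists_bound_of_continuousOn
      (hNd.mono (prod_mono hsub (subset_refl (Icc (-1 : ℝ) 1))))
    have hnb : Icc s1 s2 ∈ 𝓝 s0 := Icc_mem_nhds hs1' hs2
    have hmain := intervalIntegral.hasDerivAt_integral_of_dominated_loc_of_deriv_le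
      (μ := volume) (a := (-1 : ℝ)) (b := 1) (F := N) (F' := Nd) (x₀ := s0) (s := Icc s1 s2)
      (bound := fun _ => C) hnb ?_ ?_ ?_ ?_ ?_ ?_
    · have := hmain.2
      rwa [hI s0 hs0] at this
    · filter_upwards [hnb] with s hs
      rw [uIoc_of_le (by norm_num : (-1 : ℝ) ≤ 1)]
      exact ((hNx s (Ioo_subset_Icc_self (hsub hs))).mono
        Ioc_subset_Icc_self).aestronglyMeasurable measurableSet_Ioc
    · exact (hNx s0 (Ioo_subset_Icc_self hs0)).intervalIntegrable_of_Icc (by norm_num)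
    · rw [uIoc_of_le (by norm_num : (-1 : ℝ) ≤ 1)]
      exact ((hNdx s0 hs0).mono Ioc_subset_Icc_self).aestronglyMeasurable measurableSet_Ioc
    · refine ae_of_all _ (fun x hxm s hs => ?_)
      rw [uIoc_of_le (by norm_num : (-1 : ℝ) ≤ 1)] at hxm
      exact hC (s, x) ⟨hs, Ioc_subset_Icc_self hxm⟩
    · exact intervalIntegrable_const
    · refine ae_of_all _ (fun x hxm s hs => ?_)
      rw [uIoc_of_le (by norm_num : (-1 : ℝ) ≤ 1)] at hxm
      exact hN s (hsub hs) x (Ioc_subset_Icc_self hxm)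
  obtain ⟨c, -, hc⟩ := exists_hasDerivAt_eq_slope (fun s => ∫ x in (-1 : ℝ)..1, N s x)
    (fun _ => 0) h (continuousOn_integral hNc) hder
  have h3 : (∫ x in (-1 : ℝ)..1, N rho x) - (∫ x in (-1 : ℝ)..1, N R0 x) = 0 := by
    have h4 : rho - R0 ≠ 0 := (sub_pos.2 h).ne'
    field_simp at hc
    linarith
  linarith

end H56.SF
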