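import Pool.Agent.H56.SF.LayerMom

/-! # Contact algebra: from the pair `(y, z)` to the solution on the layer

`v0, p, q, q3` = `v0` and its first three derivatives, `a = 1 - chi q`, `e = chi y`, `r = s + e`,
`A = p - a y`, `B = z_x`, `W = v0 + z + p e - a y e / 2`, `z_s = - y - kap/2 y^2`,
`kap = chi1 + chi^2 q3`. The equation `eqn` is `r^2 r_s (Delta v + v - 1) = 0`, as it comes out of
`Pool.Agent.H36.SC.pair_identity`. -/

set_option autoImplicit false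
open Set Filter Topology MeasureTheory

namespace H56.SF

/-- The background solution and the cut-off on the layer. -/
structure Base (R0 rho : ℝ) (v0 p q q3 chi chi1 : ℝ → ℝ) : Prop where
  R0pos : 0 < R0
  v_s : ∀ s ∈ Ioo R0 rho, HasDerivAt v0 (p s) s
  p_s : ∀ s ∈ Ioo R0 rho, HasDerivAt p (q s) s
  q_s : ∀ s ∈ Ioo R0 rho, HasDerivAt q (q3 s) s
  chi_s : ∀ s ∈ Ioo R0 rho, HasDerivAt chi (chi1 s) s
  cv : ContinuousOn v0 (Icc R0 rho)
  cp : ContinuousOn p (Icc R0 rho)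
  cq : ContinuousOn q (Icc R0 rho)
  cq3 : ContinuousOn q3 (Ioo R0 rho)
  cchi : ContinuousOn chi (Icc R0 rho)
  cchi1 : ContinuousOn chi1 (Ioo R0 rho)
  chi_in : chi R0 = 0
  chi_out : chi rho = 1
  v_out : v0 rho = 0
  p_out : p rho = 0
  q_out : q rho = 1

/-- The pair `(y, z)` as functions of `(s, x)` with the partial derivatives which occur. -/
structure Pair (R0 rho : ℝ) (v0 p q q3 chi chi1 : ℝ → ℝ) (y ys yx yxs z zx zxx : ℝ → ℝ → ℝ) :
    Prop where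
  y_s : ∀ s ∈ Ioo R0 rho, ∀ x ∈ Icc (-1 : ℝ) 1, HasDerivAt (fun s => y s x) (ys s x) s
  yx_s : ∀ s ∈ Ioo R0 rho, ∀ x ∈ Icc (-1 : ℝ) 1, HasDerivAt (fun s => yx s x) (yxs s x) s
  z_s : ∀ s ∈ Ioo R0 rho, ∀ x ∈ Icc (-1 : ℝ) 1,
    HasDerivAt (fun s => z s x) (-y s x - (chi1 s + chi s ^ 2 * q3 s) / 2 * y s x ^ 2) s
  zx_s : ∀ s ∈ Ioo R0 rho, ∀ x ∈ Icc (-1 : ℝ) 1,
    HasDerivAt (fun s => zx s x) (-(1 + (chi1 s + chi s ^ 2 * q3 s) * y s x) * yx s x) s
  y_x : ∀ s ∈ Ioo R0 rho, ∀ x ∈ Ioo (-1 : ℝ) 1, HasDerivAt (fun x => y s x) (yx s x) x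
  ys_x : ∀ s ∈ Ioo R0 rho, ∀ x ∈ Ioo (-1 : ℝ) 1, HasDerivAt (fun x => ys s x) (yxs s x) x
  z_x : ∀ s ∈ Ioo R0 rho, ∀ x ∈ Ioo (-1 : ℝ) 1, HasDerivAt (fun x => z s x) (zx s x) x
  zx_x : ∀ s ∈ Ioo R0 rho, ∀ x ∈ Ioo (-1 : ℝ) 1, HasDerivAt (fun x => zx s x) (zxx s x) x
  eqn : ∀ s ∈ Ioo R0 rho, ∀ x ∈ Ioo (-1 : ℝ) 1,
    (s + chi s * y s x) ^ 2 * (q s - (1 - chi s * q s) * ys s x
        + (chi1 s * q s + chi s * q3 s) * y s x)
      + 2 * (s + chi s * y s x) * (1 + (chi1 s * y s x + chi s * ys s x))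
          * (p s - (1 - chi s * q s) * y s x)
      + (1 + (chi1 s * y s x + chi s * ys s x)) * ((1 - x ^ 2) * zxx s x - 2 * x * zx s x)
      + chi s * (1 + (chi1 s + chi s ^ 2 * q3 s) * y s x) * ((1 - x ^ 2) * yx s x ^ 2)
      + (s + chi s * y s x) ^ 2 * (1 + (chi1 s * y s x + chi s * ys s x)) *
        ((v0 s - 1) + z s x + p s * (chi s * y s x)
          - 1 / 2 * (1 - chi s * q s) * y s x * (chi s * y s x)) = 0
  cy : ContinuousOn (fun t : ℝ × ℝ => y t.1 t.2) (Icc R0 rho ×ˢ Icc (-1 : ℝ) 1)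
  cyx : ContinuousOn (fun t : ℝ × ℝ => yx t.1 t.2) (Icc R0 rho ×ˢ Icc (-1 : ℝ) 1)
  cz : ContinuousOn (fun t : ℝ × ℝ => z t.1 t.2) (Icc R0 rho ×ˢ Icc (-1 : ℝ) 1)
  czx : ContinuousOn (fun t : ℝ × ℝ => zx t.1 t.2) (Icc R0 rho ×ˢ Icc (-1 : ℝ) 1)
  cys : ContinuousOn (fun t : ℝ × ℝ => ys t.1 t.2) (Ioo R0 rho ×ˢ Icc (-1 : ℝ) 1)
  cyxs : ContinuousOn (fun t : ℝ × ℝ => yxs t.1 t.2) (Ioo R0 rho ×ˢ Icc (-1 : ℝ) 1)
  pos : ∀ s ∈ Icc R0 rho, ∀ x ∈ Icc (-1 : ℝ) 1, 0 < s + chi s * y s x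
  z_out : ∀ x ∈ Icc (-1 : ℝ) 1, z rho x = 0
  zx_out : ∀ x ∈ Icc (-1 : ℝ) 1, zx rho x = 0

theorem Pair.laySol {R0 rho : ℝ} {v0 p q q3 chi chi1 : ℝ → ℝ}
    {y ys yx yxs z zx zxx : ℝ → ℝ → ℝ} (hB : Base R0 rho v0 p q q3 chi chi1)
    (h : Pair R0 rho v0 p q q3 chi chi1 y ys yx yxs z zx zxx) :
    LaySol R0 rho (fun s x => s + chi s * y s x)
      (fun s x => 1 + (chi1 s * y s x + chi s * ys s x))
      (fun s x => chi s * yx s x)
      (fun s x => chi1 s * yx s x + chi s * yxs s x)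
      (fun s x => p s - (1 - chi s * q s) * y s x)
      (fun s x => q s + (chi1 s * q s + chi s * q3 s) * y s x - (1 - chi s * q s) * ys s x)
      zx
      (fun s x => -(1 + (chi1 s + chi s ^ 2 * q3 s) * y s x) * yx s x)
      zxx
      (fun s x => v0 s + z s x + p s * (chi s * y s x)
        - (1 - chi s * q s) * y s x * (chi s * y s x) / 2) := by
  have hsub : Ioo R0 rho ×ˢ Icc (-1 : ℝ) 1 ⊆ Icc R0 rho ×ˢ Icc (-1 : ℝ) 1 :=
    prod_mono Ioo_subset_Icc_self (subset_refl _)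
  have lift : ∀ {f : ℝ → ℝ}, ContinuousOn f (Icc R0 rho) →
      ContinuousOn (fun t : ℝ × ℝ => f t.1) (Icc R0 rho ×ˢ Icc (-1 : ℝ) 1) := fun hf =>
    hf.comp continuousOn_fst (fun t ht => ht.1)
  have lift' : ∀ {f : ℝ → ℝ}, ContinuousOn f (Ioo R0 rho) →
      ContinuousOn (fun t : ℝ × ℝ => f t.1) (Ioo R0 rho ×ˢ Icc (-1 : ℝ) 1) := fun hf =>
    hf.comp continuousOn_fst (fun t ht => ht.1)
  have lv := lift hB.cv
  have lp := lift hB.cp
  have lq := lift hB.cq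
  have lc := lift hB.cchi
  have l1 := lift' hB.cchi1
  have l3 := lift' hB.cq3
  refine
    { pos := h.pos
      r_s := ?_
      rx_s := ?_
      A_s := ?_
      B_s := h.zx_s
      W_s := ?_
      r_x := ?_
      rs_x := ?_
      B_x := h.zx_x
      W_x := ?_
      pde := ?_
      cr := ?_
      crx := ?_
      cA := ?_
      cB := h.czx
      cW := ?_
      crs := ?_
      crxs := ?_
      cAs := ?_
      cBs := ?_
      r_in := ?_
      rx_in := ?_
      A_out := ?_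
      B_out := h.zx_out
      W_out := ?_ }
  · intro s hs x hx
    refine ((hasDerivAt_id s).add ((hB.chi_s s hs).mul (h.y_s s hs x hx))).congr_deriv ?_
    simp
  · intro s hs x hx
    exact (hB.chi_s s hs).mul (h.yx_s s hs x hx)
  · intro s hs x hx
    refine ((hB.p_s s hs).sub ((((hB.chi_s s hs).mul (hB.q_s s hs)).const_sub 1).mul
      (h.y_s s hs x hx))).congr_deriv ?_
    simp only [Pi.mul_apply]
    ring
  · intro s hs x hx
    have g1 := h.y_s s hs x hx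
    refine ((((hB.v_s s hs).add (h.z_s s hs x hx)).add ((hB.p_s s hs).mul
      ((hB.chi_s s hs).mul g1))).sub (((((((hB.chi_s s hs).mul (hB.q_s s hs)).const_sub 1).mul
      g1).mul ((hB.chi_s s hs).mul g1))).div_const 2)).congr_deriv ?_
    simp only [Pi.mul_apply]
    ring
  · intro s hs x hx
    exact ((h.y_x s hs x hx).const_mul (chi s)).const_add s
  · intro s hs x hx
    exact (((h.y_x s hs x hx).const_mul (chi1 s)).add
      ((h.ys_x s hs x hx).const_mul (chi s))).const_add 1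
  · intro s hs x hx
    have g1 := h.y_x s hs x hx
    refine (((h.z_x s hs x hx).const_add (v0 s)).add ((g1.const_mul (chi s)).const_mul (p s))
      |>.sub (((g1.const_mul (1 - chi s * q s)).mul (g1.const_mul (chi s))).div_const 2)
      ).congr_deriv ?_
    ring
  · intro s hs x hx
    linear_combination h.eqn s hs x hx
  · exact continuousOn_fst.add (lc.mul h.cy)
  · exact lc.mul h.cyx
  · exact lp.sub ((continuousOn_const.sub (lc.mul lq)).mul h.cy)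
  · exact ((lv.add h.cz).add (lp.mul (lc.mul h.cy))).sub
      ((((continuousOn_const.sub (lc.mul lq)).mul h.cy).mul (lc.mul h.cy)).div_const 2)
  · exact continuousOn_const.add ((l1.mul (h.cy.mono hsub)).add ((lc.mono hsub).mul h.cys))
  · exact (l1.mul (h.cyx.mono hsub)).add ((lc.mono hsub).mul h.cyxs)
  · exact ((lq.mono hsub).add (((l1.mul (lq.mono hsub)).add ((lc.mono hsub).mul l3)).mul
      (h.cy.mono hsub))).sub
      ((continuousOn_const.sub ((lc.mono hsub).mul (lq.mono hsub))).mul h.cys)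
  · exact ((continuousOn_const.add ((l1.add (((lc.mono hsub).pow 2).mul l3)).mul
      (h.cy.mono hsub))).neg).mul (h.cyx.mono hsub)
  · intro x hx
    simp [hB.chi_in]
  · intro x hx
    simp [hB.chi_in]
  · intro x hx
    simp [hB.chi_out, hB.q_out, hB.p_out]
  · intro x hx
    simp [hB.chi_out, hB.q_out, hB.p_out, hB.v_out, h.z_out x hx]

end H56.SF
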