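import Mathlib

/-! # Termwise differentiation of series `∑ a k s * p k x` on a rectangle -/

set_option autoImplicit false
open Set Filter Topology

namespace H56.SF

theorem ser_summable {a p b : ℕ → ℝ} (hb : Summable b) (h : ∀ k, |a k * p k| ≤ b k) :
    Summable fun k => a k * p k :=
  Summable.of_norm_bounded hb fun k => by
    rw [Real.norm_eq_abs]
    exact h k

/-- derivative of a series on an open interval -/
theorem tsum_deriv {c d : ℝ} {f f' : ℕ → ℝ → ℝ} {b : ℕ → ℝ} (hb : Summable b)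
    (hf : ∀ k, ∀ s ∈ Ioo c d, HasDerivAt (f k) (f' k s) s)
    (h0 : ∀ k, ∀ s ∈ Ioo c d, |f k s| ≤ b k) (h1 : ∀ k, ∀ s ∈ Ioo c d, |f' k s| ≤ b k)
    {s : ℝ} (hs : s ∈ Ioo c d) :
    HasDerivAt (fun s => ∑' k, f k s) (∑' k, f' k s) s := by
  have hsum : Summable fun k => f k s := Summable.of_norm_bounded hb fun k => by
    rw [Real.norm_eq_abs]
    exact h0 k s hs
  exact hasDerivAt_tsum_of_isPreconnected (𝕜 := ℝ) (g := f) (g' := f') hb isOpen_Ioo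
    (isPreconnected_Ioo) hf (fun k y hy => by rw [Real.norm_eq_abs]; exact h1 k y hy) hs hsum hs

/-- derivative in `s` -/
theorem ser_s {c d x : ℝ} {a a' p : ℕ → ℝ → ℝ} {b : ℕ → ℝ} (hb : Summable b)
    (ha : ∀ k, ∀ s ∈ Ioo c d, HasDerivAt (a k) (a' k s) s)
    (h0 : ∀ k, ∀ s ∈ Ioo c d, |a k s * p k x| ≤ b k)
    (h1 : ∀ k, ∀ s ∈ Ioo c d, |a' k s * p k x| ≤ b k)
    {s : ℝ} (hs : s ∈ Ioo c d) :
    HasDerivAt (fun s => ∑' k, a k s * p k x) (∑' k, a' k s * p k x) s :=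
  tsum_deriv (f := fun k s => a k s * p k x) (f' := fun k s => a' k s * p k x) hb
    (fun k s hs => (ha k s hs).mul_const _) h0 h1 hs

/-- derivative in `x` -/
theorem ser_x {c d s : ℝ} {a p p' : ℕ → ℝ → ℝ} {b : ℕ → ℝ} (hb : Summable b)
    (hp : ∀ k, ∀ x ∈ Ioo c d, HasDerivAt (p k) (p' k x) x)
    (h0 : ∀ k, ∀ x ∈ Ioo c d, |a k s * p k x| ≤ b k)
    (h1 : ∀ k, ∀ x ∈ Ioo c d, |a k s * p' k x| ≤ b k)
    {x : ℝ} (hx : x ∈ Ioo c d) :
    HasDerivAt (fun x => ∑' k, a k s * p k x) (∑' k, a k s * p' k x) x :=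
  tsum_deriv (f := fun k x => a k s * p k x) (f' := fun k x => a k s * p' k x) hb
    (fun k x hx => (hp k x hx).const_mul _) h0 h1 hx

/-- joint continuity -/
theorem ser_cont {S T : Set ℝ} {a p : ℕ → ℝ → ℝ} {b : ℕ → ℝ} (hb : Summable b)
    (ha : ∀ k, ContinuousOn (a k) S) (hp : ∀ k, ContinuousOn (p k) T)
    (h0 : ∀ k, ∀ s ∈ S, ∀ x ∈ T, |a k s * p k x| ≤ b k) :
    ContinuousOn (fun q : ℝ × ℝ => ∑' k, a k q.1 * p k q.2) (S ×ˢ T) := by
  refine continuousOn_tsum (fun k => ?_) hb (fun k q hq => ?_)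
  · exact ((ha k).comp continuousOn_fst (fun q hq => hq.1)).mul
      ((hp k).comp continuousOn_snd (fun q hq => hq.2))
  · rw [Real.norm_eq_abs]
    exact h0 k q.1 hq.1 q.2 hq.2

/-- a power is dominated by a geometric sequence -/
theorem pow_le_geom {q : ℝ} (hq : 1 < q) (m : ℕ) :
    ∃ C : ℝ, 0 < C ∧ ∀ k : ℕ, (1 + (k : ℝ)) ^ m ≤ C * q ^ k := by
  have hq0 : 0 < q := by linarith
  have h1 : Summable fun n : ℕ => (n : ℝ) ^ m * (q⁻¹) ^ n :=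
    summable_pow_mul_geometric_of_norm_lt_one m (by
      rw [Real.norm_eq_abs, abs_of_pos (inv_pos.2 hq0)]
      exact inv_lt_one_of_one_lt₀ hq)
  have h2 : Summable fun n : ℕ => ((n + 1 : ℕ) : ℝ) ^ m * (q⁻¹) ^ (n + 1) :=
    (summable_nat_add_iff 1).2 h1
  refine ⟨(∑' n : ℕ, ((n + 1 : ℕ) : ℝ) ^ m * (q⁻¹) ^ (n + 1)) * q + 1, ?_, fun k => ?_⟩
  · have : 0 ≤ ∑' n : ℕ, ((n + 1 : ℕ) : ℝ) ^ m * (q⁻¹) ^ (n + 1) :=
      tsum_nonneg fun n => by positivity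
    positivity
  · have h3 := h2.le_tsum k (fun j _ => by positivity)
    have h4 : (1 + (k : ℝ)) ^ m = (((k + 1 : ℕ) : ℝ) ^ m * (q⁻¹) ^ (k + 1)) * q * q ^ k := by
      push_cast
      rw [pow_succ]
      have : q ≠ 0 := hq0.ne'
      have h5 : q⁻¹ ^ k * q ^ k = 1 := by rw [← mul_pow, inv_mul_cancel₀ this, one_pow]
      have h6 : q⁻¹ * q = 1 := inv_mul_cancel₀ this
      calc (1 + (k : ℝ)) ^ m = ((k : ℝ) + 1) ^ m * (q⁻¹ ^ k * q ^ k) * (q⁻¹ * q) := by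
            rw [h5, h6]; ring
        _ = _ := by ring
    rw [h4]
    have h7 : (((k + 1 : ℕ) : ℝ) ^ m * (q⁻¹) ^ (k + 1)) * q ≤
        (∑' n : ℕ, ((n + 1 : ℕ) : ℝ) ^ m * (q⁻¹) ^ (n + 1)) * q + 1 := by
      have := mul_le_mul_of_nonneg_right h3 hq0.le
      linarith
    exact mul_le_mul_of_nonneg_right h7 (by positivity)

end H56.SF
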