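import Pool.Agent.H56.SF.BaseI
import Pool.Agent.H56.SF.Ser
import Pool.Agent.H27.Leg.Bd

/-! # From the mode functions (`SF.Lay`) to the pair of functions of `(s, x)` -/

set_option autoImplicit false
open Set Filter Topology MeasureTheory Polynomial

namespace H56.SF

open Pool.Agent.H27.Leg
open Pool.Agent.H36.SC (F2 pair_identity)

/-! ### bounds on the Legendre polynomials on `X0` -/

/-- the auxiliary ratio -/
noncomputable def qq : ℝ := 1 + 2 / 10 ^ 6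

theorem qq_one : 1 ≤ qq := by unfold qq; norm_num

theorem X0_le {x : ℝ} (hx : x ∈ SF.X0) : 2 * |x| ≤ qq + 1 / qq := by
  have h1 : |x| ≤ SF.xi := abs_le.2 ⟨hx.1.le, hx.2.le⟩
  have h2 : 2 * SF.xi ≤ qq + 1 / qq := by
    unfold SF.xi qq
    norm_num
  linarith

theorem Icc_sub_X0 : Icc (-1 : ℝ) 1 ⊆ SF.X0 := by
  intro x hx
  have h : (1 : ℝ) < SF.xi := by unfold SF.xi; norm_num
  exact ⟨by linarith [hx.1], by linarith [hx.2]⟩

theorem P_bd (k : ℕ) {x : ℝ} (hx : x ∈ SF.X0) : |(P k).eval x| ≤ (1 + (k : ℝ)) ^ 4 * qq ^ k := by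
  refine (abs_le_pow k qq_one (X0_le hx)).trans ?_
  have h1 : (1 : ℝ) ≤ (1 + (k : ℝ)) ^ 4 := one_le_pow₀ (by linarith [(Nat.cast_nonneg k : (0 : ℝ) ≤ k)])
  have h2 : 0 ≤ qq ^ k := pow_nonneg (zero_le_one.trans qq_one) k
  nlinarith

theorem P1_bd (k : ℕ) {x : ℝ} (hx : x ∈ SF.X0) :
    |(derivative (P k)).eval x| ≤ (1 + (k : ℝ)) ^ 4 * qq ^ k := by
  refine (abs_der_le k qq_one (X0_le hx)).trans ?_
  have hk : (0 : ℝ) ≤ k := Nat.cast_nonneg k
  have h2 : 0 ≤ qq ^ k := pow_nonneg (zero_le_one.trans qq_one) k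
  refine mul_le_mul_of_nonneg_right ?_ h2
  have h3 : (0 : ℝ) ≤ (k : ℝ) ^ 2 := by positivity
  have h4 : (0 : ℝ) ≤ (k : ℝ) ^ 3 := by positivity
  have h5 : (0 : ℝ) ≤ (k : ℝ) ^ 4 := by positivity
  nlinarith

theorem P2_bd (k : ℕ) {x : ℝ} (hx : x ∈ SF.X0) :
    |(derivative (derivative (P k))).eval x| ≤ (1 + (k : ℝ)) ^ 4 * qq ^ k := by
  refine (abs_der2_le k qq_one (X0_le hx)).trans ?_
  have hk : (0 : ℝ) ≤ k := Nat.cast_nonneg k
  have h2 : 0 ≤ qq ^ k := pow_nonneg (zero_le_one.trans qq_one) k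
  refine mul_le_mul_of_nonneg_right ?_ h2
  have h3 : (0 : ℝ) ≤ (k : ℝ) ^ 2 := by positivity
  have h4 : (0 : ℝ) ≤ (k : ℝ) ^ 3 := by positivity
  have h5 : (0 : ℝ) ≤ (k : ℝ) ^ 4 := by positivity
  nlinarith

theorem exists_C : ∃ C : ℝ, 0 < C ∧ ∀ k : ℕ, (1 + (k : ℝ)) ^ 4 * qq ^ k ≤ C * SF.nu ^ k := by
  have hq : 0 < qq := by linarith [qq_one]
  have h1 : 1 < SF.nu / qq := by
    rw [lt_div_iff₀ hq]
    unfold SF.nu qq
    norm_num
  obtain ⟨C, hC, h⟩ := pow_le_geom h1 4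
  refine ⟨C, hC, fun k => ?_⟩
  have h2 := mul_le_mul_of_nonneg_right (h k) (pow_nonneg hq.le k)
  have h3 : C * (SF.nu / qq) ^ k * qq ^ k = C * SF.nu ^ k := by
    rw [mul_assoc, ← mul_pow, div_mul_cancel₀ _ hq.ne']
  rwa [h3] at h2

noncomputable def CC : ℝ := exists_C.choose
theorem CC_pos : 0 < CC := exists_C.choose_spec.1
theorem CC_le (k : ℕ) : (1 + (k : ℝ)) ^ 4 * qq ^ k ≤ CC * SF.nu ^ k := exists_C.choose_spec.2 k

variable {E : ℝ} (S : SF.Lay E)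

/-- the dominating sequence -/
noncomputable def bb (k : ℕ) : ℝ := 4 * CC * (SF.nu ^ k * S.B k)

theorem bb_sum : Summable (bb S) := S.B_sum.mul_left _

theorem rho_mem : SF.rho ∈ SF.I0 := ⟨R0_lt.le, le_rfl⟩
theorem R0_mem : SF.R0 ∈ SF.I0 := ⟨le_rfl, R0_lt.le⟩

theorem B_nonneg (k : ℕ) : 0 ≤ S.B k := (abs_nonneg _).trans (S.f1_le k SF.rho rho_mem)

theorem mul_bd {a p : ℝ} {k : ℕ} (ha : |a| ≤ 4 * S.B k) (hp : |p| ≤ (1 + (k : ℝ)) ^ 4 * qq ^ k) :
    |a * p| ≤ bb S k := by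
  rw [abs_mul]
  have h1 : |p| ≤ CC * SF.nu ^ k := hp.trans (CC_le k)
  have h2 := B_nonneg S k
  calc |a| * |p| ≤ (4 * S.B k) * (CC * SF.nu ^ k) :=
        mul_le_mul ha h1 (abs_nonneg _) (by positivity)
    _ = bb S k := by unfold bb; ring

theorem y_bd (k : ℕ) {s : ℝ} (hs : s ∈ SF.I0) : |S.y k s| ≤ 4 * S.B k := by
  have h1 := S.y_le k s hs
  have h2 := B_nonneg S k
  have h3 : 0 ≤ (k : ℝ) * |S.y k s| := by positivity
  linarith

theorem z_bd' (k : ℕ) {s : ℝ} (hs : s ∈ SF.I0) : |S.z k s| ≤ S.B k := by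
  have h1 := S.z_le k s hs
  have h3 : 0 ≤ (k : ℝ) * |S.z k s| := by positivity
  have h4 : 0 ≤ (k : ℝ) ^ 2 * |S.z k s| := by positivity
  nlinarith

theorem z_bd (k : ℕ) {s : ℝ} (hs : s ∈ SF.I0) : |S.z k s| ≤ 4 * S.B k := by
  have h1 := z_bd' S k hs
  have h2 := B_nonneg S k
  linarith

theorem lz_bd (k : ℕ) {s : ℝ} (hs : s ∈ SF.I0) : |SF.lam k * S.z k s| ≤ S.B k := by
  have h1 := S.z_le k s hs
  have h0 : (0 : ℝ) ≤ k := Nat.cast_nonneg k
  have h3 : 0 ≤ |S.z k s| := abs_nonneg _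
  rw [abs_mul, abs_of_nonneg (by unfold SF.lam; positivity : 0 ≤ SF.lam k)]
  unfold SF.lam
  nlinarith [mul_nonneg h0 h3]

theorem f1_bd (k : ℕ) {s : ℝ} (hs : s ∈ SF.I0) : |S.f1 k s| ≤ 4 * S.B k := by
  have h1 := S.f1_le k s hs
  have h2 := B_nonneg S k
  linarith

/-- the right side of the equation for `y` -/
noncomputable def DY (k : ℕ) (s : ℝ) : ℝ := SF.dy k s (S.y k s) (S.z k s) (S.f2 k s)

theorem dy_bd (k : ℕ) {s : ℝ} (hs : s ∈ SF.I0) : |DY S k s| ≤ 4 * S.B k := by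
  have hs0 : 1210 < s := R0_gt.trans_le hs.1
  have h2 := B_nonneg S k
  have h3 := S.f2_le k s hs
  have h4 := z_bd' S k hs
  have h5 := lz_bd S k hs
  have h6 : |S.y k s| ≤ S.B k := by
    have h1 := S.y_le k s hs
    have h3 : 0 ≤ (k : ℝ) * |S.y k s| := by positivity
    linarith
  have e : DY S k s = -(2 / s * S.y k s) + S.z k s + (-(1 / s ^ 2) * (SF.lam k * S.z k s))
      + S.f2 k s := by
    unfold DY SF.dy
    ring
  have h7 : |2 / s * S.y k s| ≤ S.B k := by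
    rw [abs_mul, abs_of_pos (by positivity : 0 < 2 / s)]
    have : 2 / s ≤ 1 := by
      rw [div_le_one (by linarith)]
      linarith
    nlinarith [abs_nonneg (S.y k s)]
  have h8 : |-(1 / s ^ 2) * (SF.lam k * S.z k s)| ≤ S.B k := by
    rw [abs_mul, abs_neg, abs_of_pos (by positivity : 0 < 1 / s ^ 2)]
    have : 1 / s ^ 2 ≤ 1 := by
      rw [div_le_one (by positivity)]
      nlinarith
    nlinarith [abs_nonneg (SF.lam k * S.z k s)]
  rw [e]
  calc |-(2 / s * S.y k s) + S.z k s + (-(1 / s ^ 2) * (SF.lam k * S.z k s)) + S.f2 k s|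
      ≤ |-(2 / s * S.y k s)| + |S.z k s| + |-(1 / s ^ 2) * (SF.lam k * S.z k s)| + |S.f2 k s| :=
        (abs_add_le _ _).trans (add_le_add ((abs_add_le _ _).trans (add_le_add
          (abs_add_le _ _) le_rfl)) le_rfl)
    _ ≤ S.B k + S.B k + S.B k + S.B k := by
        rw [abs_neg]
        gcongr
    _ = 4 * S.B k := by ring

/-! ### the functions of `(s, x)` -/

noncomputable def fY (s x : ℝ) : ℝ := ∑' k, S.y k s * (P k).eval x
noncomputable def fYS (s x : ℝ) : ℝ := ∑' k, DY S k s * (P k).eval x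
noncomputable def fYX (s x : ℝ) : ℝ := ∑' k, S.y k s * (derivative (P k)).eval x
noncomputable def fYXS (s x : ℝ) : ℝ := ∑' k, DY S k s * (derivative (P k)).eval x
noncomputable def fZ (s x : ℝ) : ℝ := ∑' k, S.z k s * (P k).eval x
noncomputable def fZX (s x : ℝ) : ℝ := ∑' k, S.z k s * (derivative (P k)).eval x
noncomputable def fZXX (s x : ℝ) : ℝ := ∑' k, S.z k s * (derivative (derivative (P k))).eval x

theorem y_hd (k : ℕ) {s : ℝ} (hs : s ∈ Ioo SF.R0 SF.rho) : HasDerivAt (S.y k) (DY S k s) s :=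
  (S.y_deriv k s (Ioo_subset_Icc_self hs)).hasDerivAt (Icc_mem_nhds hs.1 hs.2)

theorem z_hd (k : ℕ) {s : ℝ} (hs : s ∈ Ioo SF.R0 SF.rho) :
    HasDerivAt (S.z k) (-S.y k s - S.f1 k s) s :=
  (S.z_deriv k s (Ioo_subset_Icc_self hs)).hasDerivAt (Icc_mem_nhds hs.1 hs.2)

theorem zd_bd (k : ℕ) {s : ℝ} (hs : s ∈ SF.I0) : |-S.y k s - S.f1 k s| ≤ 4 * S.B k := by
  have h1 := S.f1_le k s hs
  have h2 := B_nonneg S k
  have h6 : |S.y k s| ≤ S.B k := by
    have h1 := S.y_le k s hs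
    have h3 : 0 ≤ (k : ℝ) * |S.y k s| := by positivity
    linarith
  calc |-S.y k s - S.f1 k s| ≤ |-S.y k s| + |S.f1 k s| := abs_sub _ _
    _ ≤ S.B k + S.B k := by rw [abs_neg]; gcongr
    _ ≤ 4 * S.B k := by linarith

theorem y_cont (k : ℕ) : ContinuousOn (S.y k) SF.I0 := fun s hs =>
  (S.y_deriv k s hs).continuousWithinAt

theorem z_cont (k : ℕ) : ContinuousOn (S.z k) SF.I0 := fun s hs =>
  (S.z_deriv k s hs).continuousWithinAt

theorem dy_cont (k : ℕ) : ContinuousOn (DY S k) SF.I0 := by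
  have hne : ∀ s ∈ SF.I0, s ≠ 0 := fun s hs => (R0_pos.trans_le hs.1).ne'
  unfold DY SF.dy
  exact (((continuousOn_const.div continuousOn_id hne).mul (y_cont S k)).add
    ((continuousOn_const.sub (continuousOn_const.div (continuousOn_id.pow 2)
      (fun s hs => pow_ne_zero 2 (hne s hs)))).mul (z_cont S k))).add (S.f2_cont k)

end H56.SF
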