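import Pool.Agent.H56.SF.LayPair

/-! # The pair of functions of `(s, x)` of a `SF.Lay` is a `Pair` -/

set_option autoImplicit false
open Set Filter Topology MeasureTheory Polynomial

namespace H56.SF

open Pool.Agent.H27.Leg
open Pool.Agent.H36.SC (F2 pair_identity)

variable {E : ℝ} (S : SF.Lay E)

theorem Pc (k : ℕ) (T : Set ℝ) : ContinuousOn (fun x => (P k).eval x) T :=
  (Polynomial.continuous _).continuousOn

theorem isum {a : ℕ → ℝ → ℝ} {p : ℕ → ℝ[X]} {s x : ℝ} (ha : ∀ k, |a k s| ≤ 4 * S.B k)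
    (hp : ∀ k, |(p k).eval x| ≤ (1 + (k : ℝ)) ^ 4 * qq ^ k) :
    Summable fun k => a k s * (p k).eval x :=
  ser_summable (a := fun k => a k s) (p := fun k => (p k).eval x) (bb_sum S)
    fun k => mul_bd S (ha k) (hp k)

theorem fY_s {s x : ℝ} (hs : s ∈ Ioo SF.R0 SF.rho) (hx : x ∈ SF.X0) :
    HasDerivAt (fun s => fY S s x) (fYS S s x) s :=
  ser_s (p := fun k x => (P k).eval x) (bb_sum S) (fun k s hs => y_hd S k hs)
    (fun k _ hs => mul_bd S (y_bd S k (Ioo_subset_Icc_self hs)) (P_bd k hx))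
    (fun k _ hs => mul_bd S (dy_bd S k (Ioo_subset_Icc_self hs)) (P_bd k hx)) hs

theorem fYX_s {s x : ℝ} (hs : s ∈ Ioo SF.R0 SF.rho) (hx : x ∈ SF.X0) :
    HasDerivAt (fun s => fYX S s x) (fYXS S s x) s :=
  ser_s (p := fun k x => (derivative (P k)).eval x) (bb_sum S) (fun k s hs => y_hd S k hs)
    (fun k _ hs => mul_bd S (y_bd S k (Ioo_subset_Icc_self hs)) (P1_bd k hx))
    (fun k _ hs => mul_bd S (dy_bd S k (Ioo_subset_Icc_self hs)) (P1_bd k hx)) hs

theorem fY_x {s x : ℝ} (hs : s ∈ SF.I0) (hx : x ∈ SF.X0) :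
    HasDerivAt (fun x => fY S s x) (fYX S s x) x :=
  ser_x (a := S.y) (p := fun k x => (P k).eval x) (p' := fun k x => (derivative (P k)).eval x)
    (bb_sum S) (fun k x _ => Polynomial.hasDerivAt _ x)
    (fun k _ hx => mul_bd S (y_bd S k hs) (P_bd k hx))
    (fun k _ hx => mul_bd S (y_bd S k hs) (P1_bd k hx)) hx

theorem fYS_x {s x : ℝ} (hs : s ∈ SF.I0) (hx : x ∈ SF.X0) :
    HasDerivAt (fun x => fYS S s x) (fYXS S s x) x :=
  ser_x (a := DY S) (p := fun k x => (P k).eval x) (p' := fun k x => (derivative (P k)).eval x)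
    (bb_sum S) (fun k x _ => Polynomial.hasDerivAt _ x)
    (fun k _ hx => mul_bd S (dy_bd S k hs) (P_bd k hx))
    (fun k _ hx => mul_bd S (dy_bd S k hs) (P1_bd k hx)) hx

theorem fZ_x {s x : ℝ} (hs : s ∈ SF.I0) (hx : x ∈ SF.X0) :
    HasDerivAt (fun x => fZ S s x) (fZX S s x) x :=
  ser_x (a := S.z) (p := fun k x => (P k).eval x) (p' := fun k x => (derivative (P k)).eval x)
    (bb_sum S) (fun k x _ => Polynomial.hasDerivAt _ x)
    (fun k _ hx => mul_bd S (z_bd S k hs) (P_bd k hx))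
    (fun k _ hx => mul_bd S (z_bd S k hs) (P1_bd k hx)) hx

theorem fZX_x {s x : ℝ} (hs : s ∈ SF.I0) (hx : x ∈ SF.X0) :
    HasDerivAt (fun x => fZX S s x) (fZXX S s x) x :=
  ser_x (a := S.z) (p := fun k x => (derivative (P k)).eval x)
    (p' := fun k x => (derivative (derivative (P k))).eval x)
    (bb_sum S) (fun k x _ => Polynomial.hasDerivAt _ x)
    (fun k _ hx => mul_bd S (z_bd S k hs) (P1_bd k hx))
    (fun k _ hx => mul_bd S (z_bd S k hs) (P2_bd k hx)) hx

/-- the sum of the `f1` modes and its derivative in `x` -/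
theorem f1_x {s x : ℝ} (hs : s ∈ SF.I0) (hx : x ∈ SF.X0) :
    ∑' k, S.f1 k s * (derivative (P k)).eval x = SF.kap s * fY S s x * fYX S s x := by
  have h1 : HasDerivAt (fun x => ∑' k, S.f1 k s * (P k).eval x)
      (∑' k, S.f1 k s * (derivative (P k)).eval x) x :=
    ser_x (a := S.f1) (p := fun k x => (P k).eval x) (p' := fun k x => (derivative (P k)).eval x)
      (bb_sum S) (fun k x _ => Polynomial.hasDerivAt _ x)
      (fun k _ hx => mul_bd S (f1_bd S k hs) (P_bd k hx))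
      (fun k _ hx => mul_bd S (f1_bd S k hs) (P1_bd k hx)) hx
  have h2 : HasDerivAt (fun x => SF.kap s / 2 * fY S s x ^ 2)
      (SF.kap s * fY S s x * fYX S s x) x := by
    refine (((fY_x S hs hx).pow 2).const_mul (SF.kap s / 2)).congr_deriv ?_
    simp only [Nat.cast_ofNat, Nat.add_one_sub_one, pow_one]
    ring
  have h3 : (fun x => ∑' k, S.f1 k s * (P k).eval x) =ᶠ[𝓝 x]
      fun x => SF.kap s / 2 * fY S s x ^ 2 := by
    filter_upwards [isOpen_Ioo.mem_nhds hx] with t ht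
    exact S.eq1 s hs t ht
  exact (h1.congr_of_eventuallyEq h3.symm).unique h2 |>.trans rfl

theorem fZ_s {s x : ℝ} (hs : s ∈ Ioo SF.R0 SF.rho) (hx : x ∈ SF.X0) :
    HasDerivAt (fun s => fZ S s x) (-fY S s x - SF.kap s / 2 * fY S s x ^ 2) s := by
  have hsI := Ioo_subset_Icc_self hs
  have h1 : HasDerivAt (fun s => fZ S s x) (∑' k, (-S.y k s - S.f1 k s) * (P k).eval x) s :=
    ser_s (p := fun k x => (P k).eval x) (a' := fun k s => -S.y k s - S.f1 k s) (bb_sum S)
      (fun k s hs => z_hd S k hs)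
      (fun k _ hs => mul_bd S (z_bd S k (Ioo_subset_Icc_self hs)) (P_bd k hx))
      (fun k _ hs => mul_bd S (zd_bd S k (Ioo_subset_Icc_self hs)) (P_bd k hx)) hs
  refine h1.congr_deriv ?_
  have s1 := isum S (a := S.y) (p := P) (s := s) (x := x) (fun k => y_bd S k hsI) (fun k => P_bd k hx)
  have s2 := isum S (a := S.f1) (p := P) (s := s) (x := x) (fun k => f1_bd S k hsI)
    (fun k => P_bd k hx)
  have e : ∀ k, (-S.y k s - S.f1 k s) * (P k).eval x =
      -(S.y k s * (P k).eval x) - S.f1 k s * (P k).eval x := fun k => by ring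
  rw [tsum_congr e, s1.neg.tsum_sub s2, tsum_neg]
  have h2 := S.eq1 s hsI x hx
  unfold SF.ev at h2
  rw [h2]
  rfl

theorem fZX_s {s x : ℝ} (hs : s ∈ Ioo SF.R0 SF.rho) (hx : x ∈ SF.X0) :
    HasDerivAt (fun s => fZX S s x) (-(1 + SF.kap s * fY S s x) * fYX S s x) s := by
  have hsI := Ioo_subset_Icc_self hs
  have h1 : HasDerivAt (fun s => fZX S s x)
      (∑' k, (-S.y k s - S.f1 k s) * (derivative (P k)).eval x) s :=
    ser_s (p := fun k x => (derivative (P k)).eval x) (a' := fun k s => -S.y k s - S.f1 k s)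
      (bb_sum S) (fun k s hs => z_hd S k hs)
      (fun k _ hs => mul_bd S (z_bd S k (Ioo_subset_Icc_self hs)) (P1_bd k hx))
      (fun k _ hs => mul_bd S (zd_bd S k (Ioo_subset_Icc_self hs)) (P1_bd k hx)) hs
  refine h1.congr_deriv ?_
  have s1 := isum S (a := S.y) (p := fun k => derivative (P k)) (s := s) (x := x)
    (fun k => y_bd S k hsI) (fun k => P1_bd k hx)
  have s2 := isum S (a := S.f1) (p := fun k => derivative (P k)) (s := s) (x := x)
    (fun k => f1_bd S k hsI) (fun k => P1_bd k hx)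
  have e : ∀ k, (-S.y k s - S.f1 k s) * (derivative (P k)).eval x =
      -(S.y k s * (derivative (P k)).eval x) - S.f1 k s * (derivative (P k)).eval x :=
    fun k => by ring
  rw [tsum_congr e, s1.neg.tsum_sub s2, tsum_neg, f1_x S hsI hx]
  have e2 : ∑' k, S.y k s * (derivative (P k)).eval x = fYX S s x := rfl
  rw [e2]
  ring

/-- `Lz = (1 - x²) z_xx - 2 x z_x` -/
theorem lz_eq {s x : ℝ} (hs : s ∈ SF.I0) (hx : x ∈ SF.X0) :
    (1 - x ^ 2) * fZXX S s x - 2 * x * fZX S s x = -SF.ev (fun k => SF.lam k * S.z k s) x := by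
  have s1 := isum S (a := S.z) (p := fun k => derivative (derivative (P k))) (s := s) (x := x)
    (fun k => z_bd S k hs) (fun k => P2_bd k hx)
  have s2 := isum S (a := S.z) (p := fun k => derivative (P k)) (s := s) (x := x)
    (fun k => z_bd S k hs) (fun k => P1_bd k hx)
  unfold fZXX fZX SF.ev
  rw [← tsum_mul_left, ← tsum_mul_left, ← tsum_neg]
  rw [← (s1.mul_left (1 - x ^ 2)).tsum_sub (s2.mul_left (2 * x))]
  refine tsum_congr fun k => ?_
  have h := ode_eval k x
  unfold SF.lam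
  linear_combination S.z k s * h

theorem fYS_eq {s x : ℝ} (hs : s ∈ SF.I0) (hx : x ∈ SF.X0) :
    fYS S s x = -2 * fY S s x / s + fZ S s x
      + ((1 - x ^ 2) * fZXX S s x - 2 * x * fZX S s x) / s ^ 2
      + F2 s (SF.v0 s) (SF.v1 s) (SF.v2 s) (SF.v3 s) (SF.chi s) (SF.chi1 s) (fY S s x)
        (fYS S s x) (fZ S s x) ((1 - x ^ 2) * fZXX S s x - 2 * x * fZX S s x)
        ((1 - x ^ 2) * fYX S s x ^ 2) := by
  have h2 := S.eq2 s hs x hx
  have h3 := lz_eq S hs hx
  unfold SF.N2 at h2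
  rw [← h3] at h2
  have e1 : SF.ev (fun k => SF.dy k s (S.y k s) (S.z k s) (S.f2 k s)) x = fYS S s x := rfl
  have e2 : SF.ev (fun k => S.y k s) x = fY S s x := rfl
  have e3 : SF.ev (fun k => S.z k s) x = fZ S s x := rfl
  have e4 : SF.ev1 (fun k => S.y k s) x = fYX S s x := rfl
  rw [e1, e2, e3, e4] at h2
  rw [← h2]
  rw [h3]
  have hb1 : ∀ k, |S.f2 k s| ≤ 4 * S.B k := fun k => by
    have h1 := S.f2_le k s hs
    have h2 := B_nonneg S k
    linarith
  have hb2 : ∀ k, |SF.lam k * S.z k s| ≤ 4 * S.B k := fun k => by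
    have h1 := lz_bd S k hs
    have h2 := B_nonneg S k
    linarith
  have s1 := isum S (a := S.y) (p := P) (s := s) (x := x) (fun k => y_bd S k hs) (fun k => P_bd k hx)
  have s2 := isum S (a := S.z) (p := P) (s := s) (x := x) (fun k => z_bd S k hs) (fun k => P_bd k hx)
  have s3 := isum S (a := fun k s => SF.lam k * S.z k s) (p := P) (s := s) (x := x) hb2
    (fun k => P_bd k hx)
  have s4 := isum S (a := S.f2) (p := P) (s := s) (x := x) hb1 (fun k => P_bd k hx)
  have e : ∀ k, DY S k s * (P k).eval x = ((-2 / s) * (S.y k s * (P k).eval x)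
      + S.z k s * (P k).eval x) + ((-1 / s ^ 2) * (SF.lam k * S.z k s * (P k).eval x)
      + S.f2 k s * (P k).eval x) := by
    intro k
    unfold DY SF.dy
    ring
  have e5 : fYS S s x = ((-2 / s) * (∑' k, S.y k s * (P k).eval x)
      + ∑' k, S.z k s * (P k).eval x) + ((-1 / s ^ 2) * (∑' k, SF.lam k * S.z k s * (P k).eval x)
      + ∑' k, S.f2 k s * (P k).eval x) := by
    unfold fYS
    rw [tsum_congr e, ((s1.mul_left _).add s2).tsum_add ((s3.mul_left _).add s4),
      (s1.mul_left _).tsum_add s2, (s3.mul_left _).tsum_add s4, tsum_mul_left, tsum_mul_left]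
  rw [e5]
  unfold SF.ev fY fZ
  ring

end H56.SF
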