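import Pool.Agent.H56.SF.Conserved

/-! # Moment identity on the layer, contact coordinates

Functions of `(s, x)` on `[R0, rho] × [-1, 1]`: `r` = radius of the physical point, `A = v_r`, `B = v_x`,
`W = v` at the physical point, `W_s = A r_s`, `W_x = B + A r_x`, and the equation `Δ v + v = 1`, multiplied
by `r^2 r_s`, in the form `pde`. For every mode `(j, P)`:
`∫ G(r(rho,x)) P = ∫ (G(R0) + R0^2 (W(R0,x) j'(R0) - A(R0,x) j(R0))) P`. -/

set_option autoImplicit false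
open Set Filter Topology MeasureTheory

namespace H56.SF

/-- Radial data of one mode: `j` solves the mode equation, `G` is the primitive of `r^2 j`. -/
structure RadMode (lam : ℝ) (j j1 j2 G : ℝ → ℝ) : Prop where
  hj : ∀ r, 0 < r → HasDerivAt j (j1 r) r
  hj1 : ∀ r, 0 < r → HasDerivAt j1 (j2 r) r
  hj2 : ContinuousOn j2 (Ioi 0)
  ode : ∀ r, 0 < r → r ^ 2 * j2 r + 2 * r * j1 r + (r ^ 2 - lam) * j r = 0
  hG : ∀ r, 0 < r → HasDerivAt G (r ^ 2 * j r) r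

/-- Angular data of one mode: Legendre equation. -/
structure AngMode (lam : ℝ) (P P1 P2 : ℝ → ℝ) : Prop where
  hP : ∀ x, HasDerivAt P (P1 x) x
  hP1 : ∀ x, HasDerivAt P1 (P2 x) x
  ode : ∀ x, (1 - x ^ 2) * P2 x - 2 * x * P1 x + lam * P x = 0

/-- A solution on the layer, in coordinates `(s, x)`. -/
structure LaySol (R0 rho : ℝ) (r rs rx rxs A As B Bs Bx W : ℝ → ℝ → ℝ) : Prop where
  pos : ∀ s ∈ Icc R0 rho, ∀ x ∈ Icc (-1 : ℝ) 1, 0 < r s x
  r_s : ∀ s ∈ Ioo R0 rho, ∀ x ∈ Icc (-1 : ℝ) 1, HasDerivAt (fun s => r s x) (rs s x) s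
  rx_s : ∀ s ∈ Ioo R0 rho, ∀ x ∈ Icc (-1 : ℝ) 1, HasDerivAt (fun s => rx s x) (rxs s x) s
  A_s : ∀ s ∈ Ioo R0 rho, ∀ x ∈ Icc (-1 : ℝ) 1, HasDerivAt (fun s => A s x) (As s x) s
  B_s : ∀ s ∈ Ioo R0 rho, ∀ x ∈ Icc (-1 : ℝ) 1, HasDerivAt (fun s => B s x) (Bs s x) s
  W_s : ∀ s ∈ Ioo R0 rho, ∀ x ∈ Icc (-1 : ℝ) 1, HasDerivAt (fun s => W s x) (A s x * rs s x) s
  r_x : ∀ s ∈ Ioo R0 rho, ∀ x ∈ Ioo (-1 : ℝ) 1, HasDerivAt (fun x => r s x) (rx s x) x
  rs_x : ∀ s ∈ Ioo R0 rho, ∀ x ∈ Ioo (-1 : ℝ) 1, HasDerivAt (fun x => rs s x) (rxs s x) x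
  B_x : ∀ s ∈ Ioo R0 rho, ∀ x ∈ Ioo (-1 : ℝ) 1, HasDerivAt (fun x => B s x) (Bx s x) x
  W_x : ∀ s ∈ Ioo R0 rho, ∀ x ∈ Ioo (-1 : ℝ) 1,
    HasDerivAt (fun x => W s x) (B s x + A s x * rx s x) x
  pde : ∀ s ∈ Ioo R0 rho, ∀ x ∈ Ioo (-1 : ℝ) 1,
    r s x ^ 2 * As s x + 2 * r s x * rs s x * A s x
      + (1 - x ^ 2) * (rs s x * Bx s x - rx s x * Bs s x) - 2 * x * rs s x * B s x
      + r s x ^ 2 * rs s x * (W s x - 1) = 0
  cr : ContinuousOn (fun q : ℝ × ℝ => r q.1 q.2) (Icc R0 rho ×ˢ Icc (-1 : ℝ) 1)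
  crx : ContinuousOn (fun q : ℝ × ℝ => rx q.1 q.2) (Icc R0 rho ×ˢ Icc (-1 : ℝ) 1)
  cA : ContinuousOn (fun q : ℝ × ℝ => A q.1 q.2) (Icc R0 rho ×ˢ Icc (-1 : ℝ) 1)
  cB : ContinuousOn (fun q : ℝ × ℝ => B q.1 q.2) (Icc R0 rho ×ˢ Icc (-1 : ℝ) 1)
  cW : ContinuousOn (fun q : ℝ × ℝ => W q.1 q.2) (Icc R0 rho ×ˢ Icc (-1 : ℝ) 1)
  crs : ContinuousOn (fun q : ℝ × ℝ => rs q.1 q.2) (Ioo R0 rho ×ˢ Icc (-1 : ℝ) 1)
  crxs : ContinuousOn (fun q : ℝ × ℝ => rxs q.1 q.2) (Ioo R0 rho ×ˢ Icc (-1 : ℝ) 1)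
  cAs : ContinuousOn (fun q : ℝ × ℝ => As q.1 q.2) (Ioo R0 rho ×ˢ Icc (-1 : ℝ) 1)
  cBs : ContinuousOn (fun q : ℝ × ℝ => Bs q.1 q.2) (Ioo R0 rho ×ˢ Icc (-1 : ℝ) 1)
  r_in : ∀ x ∈ Icc (-1 : ℝ) 1, r R0 x = R0
  rx_in : ∀ x ∈ Icc (-1 : ℝ) 1, rx R0 x = 0
  A_out : ∀ x ∈ Icc (-1 : ℝ) 1, A rho x = 0
  B_out : ∀ x ∈ Icc (-1 : ℝ) 1, B rho x = 0
  W_out : ∀ x ∈ Icc (-1 : ℝ) 1, W rho x = 0

/-- The flux whose integral over `x` is conserved. -/
def flN (j j1 G P P1 : ℝ → ℝ) (r rx A B W : ℝ → ℝ → ℝ) (s x : ℝ) : ℝ :=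
  r s x ^ 2 * (j (r s x) * P x * A s x - W s x * (j1 (r s x) * P x))
    - rx s x * (1 - x ^ 2) * (j (r s x) * P x * B s x - W s x * (j (r s x) * P1 x))
    - G (r s x) * P x

/-- Its derivative in `s`. -/
def flNd (j j1 j2 P P1 : ℝ → ℝ) (r rs rx rxs A As B Bs W : ℝ → ℝ → ℝ) (s x : ℝ) : ℝ :=
  2 * r s x * rs s x * (j (r s x) * P x * A s x - W s x * (j1 (r s x) * P x))
    + r s x ^ 2 * (j1 (r s x) * rs s x * P x * A s x + j (r s x) * P x * As s x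
        - A s x * rs s x * (j1 (r s x) * P x) - W s x * (j2 (r s x) * rs s x * P x))
    - rxs s x * (1 - x ^ 2) * (j (r s x) * P x * B s x - W s x * (j (r s x) * P1 x))
    - rx s x * (1 - x ^ 2) * (j1 (r s x) * rs s x * P x * B s x + j (r s x) * P x * Bs s x
        - A s x * rs s x * (j (r s x) * P1 x) - W s x * (j1 (r s x) * rs s x * P1 x))
    - r s x ^ 2 * j (r s x) * rs s x * P x

/-- The angular flux. -/
def flS (j P P1 : ℝ → ℝ) (r rs B W : ℝ → ℝ → ℝ) (s x : ℝ) : ℝ :=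
  rs s x * (1 - x ^ 2) * (j (r s x) * P x * B s x - W s x * (j (r s x) * P1 x))

theorem moment_layer {R0 rho lam : ℝ} (h : R0 < rho)
    {r rs rx rxs A As B Bs Bx W : ℝ → ℝ → ℝ} {j j1 j2 G P P1 P2 : ℝ → ℝ}
    (L : LaySol R0 rho r rs rx rxs A As B Bs Bx W) (hJ : RadMode lam j j1 j2 G)
    (hA : AngMode lam P P1 P2) :
    ∫ x in (-1 : ℝ)..1, G (r rho x) * P x =
      ∫ x in (-1 : ℝ)..1, (G R0 + R0 ^ 2 * (W R0 x * j1 R0 - A R0 x * j R0)) * P x := by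
  have hPc : Continuous P := continuous_iff_continuousAt.2 fun x => (hA.hP x).continuousAt
  have hP1c : Continuous P1 := continuous_iff_continuousAt.2 fun x => (hA.hP1 x).continuousAt
  have hjc : ContinuousOn j (Ioi 0) := fun r hr => (hJ.hj r hr).continuousAt.continuousWithinAt
  have hj1c : ContinuousOn j1 (Ioi 0) := fun r hr => (hJ.hj1 r hr).continuousAt.continuousWithinAt
  have hGc : ContinuousOn G (Ioi 0) := fun r hr => (hJ.hG r hr).continuousAt.continuousWithinAt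
  have hmap : MapsTo (fun q : ℝ × ℝ => r q.1 q.2) (Icc R0 rho ×ˢ Icc (-1 : ℝ) 1) (Ioi 0) :=
    fun q hq => L.pos q.1 hq.1 q.2 hq.2
  have hsub : Ioo R0 rho ×ˢ Icc (-1 : ℝ) 1 ⊆ Icc R0 rho ×ˢ Icc (-1 : ℝ) 1 :=
    prod_mono Ioo_subset_Icc_self (subset_refl _)
  have cj := hjc.comp L.cr hmap
  have cj1 := hj1c.comp L.cr hmap
  have cj2 := hJ.hj2.comp L.cr hmap
  have cG := hGc.comp L.cr hmap
  have cP : ContinuousOn (fun q : ℝ × ℝ => P q.2) (Icc R0 rho ×ˢ Icc (-1 : ℝ) 1) :=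
    (hPc.comp continuous_snd).continuousOn
  have cP1 : ContinuousOn (fun q : ℝ × ℝ => P1 q.2) (Icc R0 rho ×ˢ Icc (-1 : ℝ) 1) :=
    (hP1c.comp continuous_snd).continuousOn
  have cx : ContinuousOn (fun q : ℝ × ℝ => 1 - q.2 ^ 2) (Icc R0 rho ×ˢ Icc (-1 : ℝ) 1) := by
    fun_prop
  have hmain := conserved h (N := flN j j1 G P P1 r rx A B W)
    (Nd := flNd j j1 j2 P P1 r rs rx rxs A As B Bs W) (S := flS j P P1 r rs B W) ?_ ?_ ?_ ?_ ?_ ?_ ?_
  · have e0 : ∫ x in (-1 : ℝ)..1, flN j j1 G P P1 r rx A B W R0 x =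
        - ∫ x in (-1 : ℝ)..1, (G R0 + R0 ^ 2 * (W R0 x * j1 R0 - A R0 x * j R0)) * P x := by
      rw [← intervalIntegral.integral_neg]
      refine intervalIntegral.integral_congr (fun x hx => ?_)
      rw [uIcc_of_le (by norm_num : (-1 : ℝ) ≤ 1)] at hx
      simp only [flN, L.r_in x hx, L.rx_in x hx]
      ring
    have e1 : ∫ x in (-1 : ℝ)..1, flN j j1 G P P1 r rx A B W rho x =
        - ∫ x in (-1 : ℝ)..1, G (r rho x) * P x := by
      rw [← intervalIntegral.integral_neg]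
      refine intervalIntegral.integral_congr (fun x hx => ?_)
      rw [uIcc_of_le (by norm_num : (-1 : ℝ) ≤ 1)] at hx
      simp only [flN, L.A_out x hx, L.B_out x hx, L.W_out x hx]
      ring
    rw [e0, e1] at hmain
    linarith
  · unfold flN
    exact (((L.cr.pow 2).mul (((cj.mul cP).mul L.cA).sub (L.cW.mul (cj1.mul cP)))).sub
      ((L.crx.mul cx).mul (((cj.mul cP).mul L.cB).sub (L.cW.mul (cj.mul cP1))))).sub (cG.mul cP)
  · have dr := L.cr.mono hsub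
    have dj := cj.mono hsub
    have dj1 := cj1.mono hsub
    have dj2 := cj2.mono hsub
    have dP := cP.mono hsub
    have dP1 := cP1.mono hsub
    have dx := cx.mono hsub
    have dA := L.cA.mono hsub
    have dB := L.cB.mono hsub
    have dW := L.cW.mono hsub
    have drx := L.crx.mono hsub
    have drs := L.crs
    unfold flNd
    exact ((((((continuousOn_const.mul dr).mul drs).mul
        (((dj.mul dP).mul dA).sub (dW.mul (dj1.mul dP)))).add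
      ((dr.pow 2).mul ((((((dj1.mul drs).mul dP).mul dA).add ((dj.mul dP).mul L.cAs)).sub
        ((dA.mul drs).mul (dj1.mul dP))).sub (dW.mul ((dj2.mul drs).mul dP))))).sub
      ((L.crxs.mul dx).mul (((dj.mul dP).mul dB).sub (dW.mul (dj.mul dP1))))).sub
      ((drx.mul dx).mul ((((((dj1.mul drs).mul dP).mul dB).add ((dj.mul dP).mul L.cBs)).sub
        ((dA.mul drs).mul (dj.mul dP1))).sub (dW.mul ((dj1.mul drs).mul dP1))))).sub
      ((((dr.pow 2).mul dj).mul drs).mul dP)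
  · intro s hs x hx
    have hsI := Ioo_subset_Icc_self hs
    have hp := L.pos s hsI x hx
    have g1 := L.r_s s hs x hx
    have gj := (hJ.hj _ hp).comp s g1
    have gj1 := (hJ.hj1 _ hp).comp s g1
    have gG := (hJ.hG _ hp).comp s g1
    have h2 := (((g1.pow 2).mul (((gj.mul_const (P x)).mul (L.A_s s hs x hx)).sub
        ((L.W_s s hs x hx).mul (gj1.mul_const (P x))))).sub
      (((L.rx_s s hs x hx).mul_const (1 - x ^ 2)).mul
        (((gj.mul_const (P x)).mul (L.B_s s hs x hx)).sub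
          ((L.W_s s hs x hx).mul (gj.mul_const (P1 x)))))).sub (gG.mul_const (P x))
    refine h2.congr_deriv ?_
    simp only [flNd, Function.comp_apply, Pi.pow_apply, Pi.mul_apply, Pi.sub_apply,
      Nat.cast_ofNat, Nat.add_one_sub_one, pow_one]
    ring
  · intro s hs
    have hline : ∀ {F : ℝ × ℝ → ℝ}, ContinuousOn F (Ioo R0 rho ×ˢ Icc (-1 : ℝ) 1) →
        ContinuousOn (fun x => F (s, x)) (Icc (-1 : ℝ) 1) := fun hF =>
      hF.comp (f := fun x : ℝ => ((s, x) : ℝ × ℝ)) (by fun_prop) (fun x hx => ⟨hs, hx⟩)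
    have : ContinuousOn (fun q : ℝ × ℝ => flS j P P1 r rs B W q.1 q.2)
        (Ioo R0 rho ×ˢ Icc (-1 : ℝ) 1) := by
      unfold flS
      exact (L.crs.mul (cx.mono hsub)).mul
        ((((cj.mono hsub).mul (cP.mono hsub)).mul (L.cB.mono hsub)).sub
          ((L.cW.mono hsub).mul ((cj.mono hsub).mul (cP1.mono hsub))))
    exact hline this
  · intro s hs x hx
    have hxI := Ioo_subset_Icc_self hx
    have hsI := Ioo_subset_Icc_self hs
    have hp := L.pos s hsI x hxI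
    have g1 := L.r_x s hs x hx
    have gj := (hJ.hj _ hp).comp x g1
    have gx2 : HasDerivAt (fun y : ℝ => 1 - y ^ 2) (-(2 * x)) x := by
      have := ((hasDerivAt_id x).pow 2).const_sub 1
      simpa using this
    have h2 := ((L.rs_x s hs x hx).mul gx2).mul
        (((gj.mul (hA.hP x)).mul (L.B_x s hs x hx)).sub
          ((L.W_x s hs x hx).mul (gj.mul (hA.hP1 x))))
    refine h2.congr_deriv ?_
    have hode := hJ.ode _ hp
    have hleg := hA.ode x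
    have hpd := L.pde s hs x hx
    simp only [flNd, Function.comp_apply, Pi.mul_apply, Pi.sub_apply]
    linear_combination j (r s x) * P x * hpd - rs s x * W s x * P x * hode
      - rs s x * W s x * j (r s x) * hleg
  · intro s hs
    simp [flS]
  · intro s hs
    simp [flS]

end H56.SF
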