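import Pool.Agent.H56.SF.LaySer

/-! # The moment identity for `SF.Lay` -/

set_option autoImplicit false
open Set Filter Topology MeasureTheory Polynomial

namespace H56.SF

open Pool.Agent.H27.Leg
open Pool.Agent.H68.SC (jl djl jl_deriv jl_smooth djl_smooth jl_ode)
open Pool.Agent.H36.SC (F2 pair_identity djl_zero')

variable {E : ℝ} (S : SF.Lay E)

theorem chi_mem {s : ℝ} (hs : s ∈ SF.I0) : 0 ≤ SF.chi s ∧ SF.chi s ≤ 1 := by
  have h1 : 0 ≤ s - SF.R0 := sub_nonneg.2 hs.1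
  have h2 : s - SF.R0 ≤ SF.wd := by
    have := hs.2
    unfold SF.R0
    linarith
  have h3 : (0 : ℝ) < SF.wd := by unfold SF.wd; norm_num
  have e : SF.chi s = ((s - SF.R0) / SF.wd) ^ 3 := by
    show Pool.Agent.H36.SC.cut SF.R0 SF.wd s = _
    unfold Pool.Agent.H36.SC.cut
    rw [Pool.Agent.H36.SC.ppt_of_nonneg h1, div_pow]
  rw [e]
  have h4 : 0 ≤ (s - SF.R0) / SF.wd := div_nonneg h1 h3.le
  have h5 : (s - SF.R0) / SF.wd ≤ 1 := (div_le_one h3).2 h2
  exact ⟨pow_nonneg h4 3, pow_le_one₀ h4 h5⟩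

theorem layPair : Pair SF.R0 SF.rho SF.v0 SF.v1 SF.v2 SF.v3 SF.chi SF.chi1
    (fY S) (fYS S) (fYX S) (fYXS S) (fZ S) (fZX S) (fZXX S) := by
  have hX : ∀ x ∈ Icc (-1 : ℝ) 1, x ∈ SF.X0 := fun x hx => Icc_sub_X0 hx
  have hX' : ∀ x ∈ Ioo (-1 : ℝ) 1, x ∈ SF.X0 := fun x hx => Icc_sub_X0 (Ioo_subset_Icc_self hx)
  have hI : ∀ s ∈ Ioo SF.R0 SF.rho, s ∈ SF.I0 := fun s hs => Ioo_subset_Icc_self hs
  refine
    { y_s := fun s hs x hx => fY_s S hs (hX x hx)
      yx_s := fun s hs x hx => fYX_s S hs (hX x hx)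
      z_s := fun s hs x hx => fZ_s S hs (hX x hx)
      zx_s := fun s hs x hx => fZX_s S hs (hX x hx)
      y_x := fun s hs x hx => fY_x S (hI s hs) (hX' x hx)
      ys_x := fun s hs x hx => fYS_x S (hI s hs) (hX' x hx)
      z_x := fun s hs x hx => fZ_x S (hI s hs) (hX' x hx)
      zx_x := fun s hs x hx => fZX_x S (hI s hs) (hX' x hx)
      eqn := ?_
      cy := ser_cont (bb_sum S) (y_cont S) (fun k => Pc k _)
        (fun k s hs x hx => mul_bd S (y_bd S k hs) (P_bd k (hX x hx)))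
      cyx := ser_cont (p := fun k x => (derivative (P k)).eval x) (bb_sum S) (y_cont S)
        (fun k => (Polynomial.continuous _).continuousOn)
        (fun k s hs x hx => mul_bd S (y_bd S k hs) (P1_bd k (hX x hx)))
      cz := ser_cont (bb_sum S) (z_cont S) (fun k => Pc k _)
        (fun k s hs x hx => mul_bd S (z_bd S k hs) (P_bd k (hX x hx)))
      czx := ser_cont (p := fun k x => (derivative (P k)).eval x) (bb_sum S) (z_cont S)
        (fun k => (Polynomial.continuous _).continuousOn)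
        (fun k s hs x hx => mul_bd S (z_bd S k hs) (P1_bd k (hX x hx)))
      cys := ser_cont (bb_sum S) (fun k => (dy_cont S k).mono Ioo_subset_Icc_self)
        (fun k => Pc k _) (fun k s hs x hx => mul_bd S (dy_bd S k (hI s hs)) (P_bd k (hX x hx)))
      cyxs := ser_cont (p := fun k x => (derivative (P k)).eval x) (bb_sum S)
        (fun k => (dy_cont S k).mono Ioo_subset_Icc_self)
        (fun k => (Polynomial.continuous _).continuousOn)
        (fun k s hs x hx => mul_bd S (dy_bd S k (hI s hs)) (P1_bd k (hX x hx)))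
      pos := ?_
      z_out := ?_
      zx_out := ?_ }
  · intro s hs x hx
    have hs0 : s ≠ 0 := (R0_pos.trans hs.1).ne'
    have h0 := SF.bgd.ode s (R0_pos.trans hs.1)
    have h1 := SF.bgd.ode' s (R0_pos.trans hs.1)
    exact pair_identity s _ _ _ _ _ _ _ _ _ _ _ hs0 h0 h1 (fYS_eq S (hI s hs) (hX' x hx))
  · intro s hs x hx
    have h1 := (S.small s hs x (hX x hx)).1
    have h2 := chi_mem hs
    have h3 : 1210 < s := R0_gt.trans_le hs.1
    have e2 : SF.ev (fun k => S.y k s) x = fY S s x := rfl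
    rw [e2] at h1
    have h4 : |SF.chi s * fY S s x| ≤ 1 * (1 / 1000) := by
      rw [abs_mul, abs_of_nonneg h2.1]
      exact mul_le_mul h2.2 h1 (abs_nonneg _) (by norm_num)
    have h5 := (abs_le.1 h4).1
    linarith
  · intro x hx
    unfold fZ
    simp [S.z_rho]
  · intro x hx
    unfold fZX
    simp [S.z_rho]

/-- derivative of `Ph k` -/
theorem Ph_deriv (k : ℕ) {r : ℝ} (hr : 0 < r) :
    HasDerivAt (fun r => SF.Ph k r) (r ^ 2 * jl k r) r := by
  have hrho : 0 < SF.rho := R0_pos.trans R0_lt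
  have hc : ContinuousOn (fun t => t ^ 2 * jl k t) (Ioi 0) :=
    (continuousOn_id.pow 2).mul (jl_smooth k).continuousOn
  have hsub : uIcc SF.rho r ⊆ Ioi 0 := by
    intro t ht
    exact lt_of_lt_of_le (lt_min hrho hr) ht.1
  exact intervalIntegral.integral_hasDerivAt_right (hc.mono hsub).intervalIntegrable
      (hc.stronglyMeasurableAtFilter isOpen_Ioi r hr) (hc.continuousAt (isOpen_Ioi.mem_nhds hr))

/-- `Ph 0` in closed form -/
theorem Ph_zero : SF.Ph 0 SF.R0 = SF.R0 ^ 2 * jl 1 SF.R0 := by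
  have hpos : ∀ t ∈ uIcc SF.rho SF.R0, 0 < t := by
    intro t ht
    rw [uIcc_of_ge R0_lt.le] at ht
    exact R0_pos.trans_le ht.1
  have h1 : ∀ t ∈ uIcc SF.rho SF.R0, HasDerivAt (fun t => -(t ^ 2 * djl 0 t)) (t ^ 2 * jl 0 t) t := by
    intro t ht
    refine (jl_ode 0 (hpos t ht)).neg.congr_deriv ?_
    simp
  have hc : ContinuousOn (fun t => t ^ 2 * jl 0 t) (Ioi 0) :=
    (continuousOn_id.pow 2).mul (jl_smooth 0).continuousOn
  have h2 := intervalIntegral.integral_eq_sub_of_hasDerivAt h1 (hc.mono hpos).intervalIntegrable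
  unfold SF.Ph
  rw [h2]
  simp only [djl_zero']
  rw [jl1_rho]
  ring

theorem mom (k : ℕ) :
    2 / (2 * (k : ℝ) + 1) * SF.R0 ^ 2 * S.wr k = SF.Mom k (fun k => S.y k SF.rho) := by
  have hJ := radMode_jl k (G := fun r => SF.Ph k r) (fun r hr => Ph_deriv k hr)
  have key := moment_pair R0_lt base (layPair S) hJ (angMode_P k)
  have hsz : Summable fun m => |S.z m SF.R0| := by
    refine Summable.of_nonneg_of_le (fun _ => abs_nonneg _) (fun m => ?_) S.B_sum
    have h1 := z_bd' S m R0_mem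
    have h2 := B_nonneg S m
    have h3 : 1 ≤ SF.nu ^ m := one_le_pow₀ (by unfold SF.nu; norm_num)
    nlinarith
  have hsy : Summable fun m => |S.y m SF.R0| := by
    refine Summable.of_nonneg_of_le (fun _ => abs_nonneg _) (fun m => ?_) S.B_sum
    have h1 := S.y_le m SF.R0 R0_mem
    have h4 : 0 ≤ (m : ℝ) * |S.y m SF.R0| := by positivity
    have h2 := B_nonneg S m
    have h3 : 1 ≤ SF.nu ^ m := one_le_pow₀ (by unfold SF.nu; norm_num)
    nlinarith
  have ez : ∫ x in (-1 : ℝ)..1, fZ S SF.R0 x * (P k).eval x = S.z k SF.R0 * (2 / (2 * (k : ℝ) + 1)) :=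
    integral_tsum_P hsz k
  have ey : ∫ x in (-1 : ℝ)..1, fY S SF.R0 x * (P k).eval x = S.y k SF.R0 * (2 / (2 * (k : ℝ) + 1)) :=
    integral_tsum_P hsy k
  rw [ez, ey] at key
  have e0 : (SF.Ph k SF.R0 + SF.R0 ^ 2 * (SF.v0 SF.R0 * djl k SF.R0
      - SF.v1 SF.R0 * jl k SF.R0)) * (∫ x in (-1 : ℝ)..1, (P k).eval x) = 0 := by
    by_cases hk : k = 0
    · subst hk
      have h2 : SF.v0 SF.R0 * djl 0 SF.R0 - SF.v1 SF.R0 * jl 0 SF.R0 = -jl 1 SF.R0 := by
        show Pool.Agent.H36.SC.bv0 SF.rho SF.R0 * djl 0 SF.R0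
          - Pool.Agent.H36.SC.bp SF.rho SF.R0 * jl 0 SF.R0 = -jl 1 SF.R0
        unfold Pool.Agent.H36.SC.bv0 Pool.Agent.H36.SC.bp
        rw [djl_zero']
        ring
      rw [Ph_zero, h2]
      ring
    · rw [integral_P k hk, mul_zero]
  rw [e0, zero_add] at key
  have e1 : SF.Mom k (fun k => S.y k SF.rho) =
      ∫ x in (-1 : ℝ)..1, SF.Ph k (SF.rho + fY S SF.rho x) * (P k).eval x := rfl
  rw [e1, key]
  unfold SF.Lay.wr
  ring

end H56.SF
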