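import Pool.Agent.H56.SF.Contact

/-! # The moment identity for the pair `(y, z)` -/

set_option autoImplicit false
open Set Filter Topology MeasureTheory

namespace H56.SF

theorem moment_pair {R0 rho lam : ℝ} (hlt : R0 < rho) {v0 p q q3 chi chi1 : ℝ → ℝ}
    {y ys yx yxs z zx zxx : ℝ → ℝ → ℝ} {j j1 j2 G P P1 P2 : ℝ → ℝ}
    (hB : Base R0 rho v0 p q q3 chi chi1)
    (h : Pair R0 rho v0 p q q3 chi chi1 y ys yx yxs z zx zxx)
    (hJ : RadMode lam j j1 j2 G) (hA : AngMode lam P P1 P2) :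
    ∫ x in (-1 : ℝ)..1, G (rho + y rho x) * P x =
      (G R0 + R0 ^ 2 * (v0 R0 * j1 R0 - p R0 * j R0)) * (∫ x in (-1 : ℝ)..1, P x)
        + R0 ^ 2 * (j1 R0 * (∫ x in (-1 : ℝ)..1, z R0 x * P x)
          + j R0 * (∫ x in (-1 : ℝ)..1, y R0 x * P x)) := by
  have hm := moment_layer hlt (h.laySol hB) hJ hA
  simp only [hB.chi_out, one_mul, hB.chi_in, zero_mul, mul_zero, add_zero, sub_zero, zero_div] at hm
  rw [hm]
  have hPc : Continuous P := continuous_iff_continuousAt.2 fun x => (hA.hP x).continuousAt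
  have hR : R0 ∈ Icc R0 rho := ⟨le_rfl, hlt.le⟩
  have cy : ContinuousOn (fun x => y R0 x) (Icc (-1 : ℝ) 1) :=
    h.cy.comp (f := fun x : ℝ => ((R0, x) : ℝ × ℝ)) (by fun_prop) (fun x hx => ⟨hR, hx⟩)
  have cz : ContinuousOn (fun x => z R0 x) (Icc (-1 : ℝ) 1) :=
    h.cz.comp (f := fun x : ℝ => ((R0, x) : ℝ × ℝ)) (by fun_prop) (fun x hx => ⟨hR, hx⟩)
  have iP : IntervalIntegrable P volume (-1) 1 := hPc.intervalIntegrable _ _
  have iz : IntervalIntegrable (fun x => z R0 x * P x) volume (-1) 1 :=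
    (cz.mul hPc.continuousOn).intervalIntegrable_of_Icc (by norm_num)
  have iy : IntervalIntegrable (fun x => y R0 x * P x) volume (-1) 1 :=
    (cy.mul hPc.continuousOn).intervalIntegrable_of_Icc (by norm_num)
  have e : ∫ x in (-1 : ℝ)..1, (G R0 + R0 ^ 2 * ((v0 R0 + z R0 x) * j1 R0
        - (p R0 - y R0 x) * j R0)) * P x =
      ∫ x in (-1 : ℝ)..1, ((G R0 + R0 ^ 2 * (v0 R0 * j1 R0 - p R0 * j R0)) * P x
        + (R0 ^ 2 * j1 R0 * (z R0 x * P x) + R0 ^ 2 * j R0 * (y R0 x * P x))) := by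
    refine intervalIntegral.integral_congr (fun x _ => ?_)
    ring
  have e' := e
  simp only [sub_mul, one_mul] at e e' ⊢
  rw [e, intervalIntegral.integral_add (iP.const_mul _) ((iz.const_mul _).add (iy.const_mul _)),
    intervalIntegral.integral_add (iz.const_mul _) (iy.const_mul _),
    intervalIntegral.integral_const_mul, intervalIntegral.integral_const_mul,
    intervalIntegral.integral_const_mul]
  ring

end H56.SF
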